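import Pool.Agent.H17.SQA.Stmts

/-!
# SQA: row FLD, a large finite field and an element that is not a root
-/

set_option autoImplicit false

namespace Pool.SQA

theorem t_fld : FLDStmt := by
  intro p hp f N hf
  classical
  set g : Polynomial (ZMod p) := f * Polynomial.X with hg
  have hg0 : g ≠ 0 := mul_ne_zero hf Polynomial.X_ne_zero
  set s : ℕ := g.natDegree + N + 1 with hs
  have hfin : Finite (GaloisField p s) := inferInstance
  have hcard : Nat.card (GaloisField p s) = p ^ s := GaloisField.card p s (by omega)
  have hbig : g.natDegree + N < p ^ s :=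
    lt_of_lt_of_le (by omega : g.natDegree + N < s) (Nat.lt_pow_self hp.out.one_lt).le
  have hmap : g.map (algebraMap (ZMod p) (GaloisField p s)) ≠ 0 :=
    (Polynomial.map_ne_zero_iff (algebraMap (ZMod p) (GaloisField p s)).injective).2 hg0
  obtain ⟨z, hz⟩ := Polynomial.exists_eval_ne_zero_of_natDegree_lt_card
    (g.map (algebraMap (ZMod p) (GaloisField p s))) hmap (by
      rw [Polynomial.natDegree_map, ← Nat.cast_card, hcard]
      exact_mod_cast (by omega : g.natDegree < p ^ s))
  rw [Polynomial.eval_map, ← Polynomial.aeval_def, hg, map_mul, Polynomial.aeval_X] at hz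
  refine ⟨GaloisField p s, inferInstance, Fintype.ofFinite _, Classical.decEq _, inferInstance, z,
    ?_, right_ne_zero_of_mul hz, left_ne_zero_of_mul hz⟩
  rw [Fintype.card_eq_nat_card, hcard]
  omega

end Pool.SQA
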